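import Mathlib
import Pool.Agent.H759R2.Kad.Props7

open scoped ComplexOrder InnerProductSpace ComplexConjugate
open Finset

noncomputable section

namespace H759R2.Kad

universe u v

namespace H85Q11

section alg

variable {F : Type u} [CStarAlgebra F]

theorem mul_of_pi {v p : F} (hp : Prj p) (h : star v * v = p) : v * p = v := by
  have e : star (v - v * p) * (v - v * p) = 0 := by
    have h1 : star (v - v * p) = star v - p * star v := by
      rw [star_sub, star_mul, hp.1]
    rw [h1]
    have h2 : (star v - p * star v) * (v - v * p) =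
        star v * v - star v * v * p - p * (star v * v) + p * (star v * v) * p := by noncomm_ring
    rw [h2, h, hp.2, hp.2]
    simp
  have e2 := CStarRing.star_mul_self_eq_zero_iff (v - v * p) |>.mp e
  exact (sub_eq_zero.mp e2).symm

theorem tup_mul {n : ℕ} {v : Fin n → F} {p : F} (h : Tup v p) (i : Fin n) : v i * p = v i :=
  mul_of_pi h.pr (by rw [h.rel i i, if_pos rfl])

theorem tup_mul' {n : ℕ} {v : Fin n → F} {p : F} (h : Tup v p) (i : Fin n) :
    p * star (v i) = star (v i) := by
  have := congrArg star (tup_mul h i)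
  rwa [star_mul, h.pr.1] at this

theorem tup_prod {n : ℕ} {v : Fin n → F} {p : F} (h : Tup v p) (i j : Fin n) :
    (v i * star (v i)) * (v j * star (v j)) = if i = j then v i * star (v i) else 0 := by
  have e : (v i * star (v i)) * (v j * star (v j)) = v i * (star (v i) * v j) * star (v j) := by
    simp only [mul_assoc]
  rw [e, h.rel i j]
  by_cases hij : i = j
  · subst hij
    rw [if_pos rfl, if_pos rfl, tup_mul h i]
  · rw [if_neg hij, if_neg hij, mul_zero, zero_mul]

theorem tup_sum_mul {n : ℕ} {v : Fin n → F} {p : F} (h : Tup v p) (j : Fin n) :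
    (∑ i, v i * star (v i)) * (v j * star (v j)) = v j * star (v j) := by
  rw [Finset.sum_mul]
  simp only [tup_prod h]
  simp

theorem tup_mul_sum {n : ℕ} {v : Fin n → F} {p : F} (h : Tup v p) (j : Fin n) :
    (v j * star (v j)) * (∑ i, v i * star (v i)) = v j * star (v j) := by
  rw [Finset.mul_sum]
  simp only [tup_prod h]
  simp

theorem tup_sum_idem {n : ℕ} {v : Fin n → F} {p : F} (h : Tup v p) :
    (∑ i, v i * star (v i)) * (∑ i, v i * star (v i)) = ∑ i, v i * star (v i) := by
  conv_lhs => rw [Finset.mul_sum]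
  exact Finset.sum_congr rfl fun j _ => tup_sum_mul h j

theorem star_sum_proj {n : ℕ} (v : Fin n → F) :
    star (∑ i, v i * star (v i)) = ∑ i, v i * star (v i) := by
  rw [star_sum]
  refine Finset.sum_congr rfl fun i _ => ?_
  rw [star_mul, star_star]

end alg

section map

variable {A : Type u} [CStarAlgebra A] {F : Type u} [CStarAlgebra F]

theorem tup_map (q : A →⋆ₐ[ℂ] F) {n : ℕ} {v : Fin n → A} {p : A} (h : Tup v p) :
    Tup (fun i => q (v i)) (q p) where
  pr := ⟨by rw [← map_star, h.pr.1], by rw [← map_mul, h.pr.2]⟩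
  rel := fun i j => by
    rw [← map_star, ← map_mul, h.rel i j]
    split_ifs
    · rfl
    · exact map_zero q

end map

/-- finite type of `1` from finite type of `P` -/
theorem ft_one (h4 : Q_ftup.{u}) {F : Type u} [CStarAlgebra F] {k : ℕ} {V : Fin (k + 1) → F}
    {P : F} (hT : Tup V P) (hS : Sbe (1 - ∑ i, V i * star (V i)) P) (hP : FT P) :
    FT (1 : F) := by
  obtain ⟨S, hSdef⟩ : ∃ S : F, S = ∑ i, V i * star (V i) := ⟨_, rfl⟩
  rw [← hSdef] at hS
  have hSs : star S = S := by rw [hSdef]; exact star_sum_proj V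
  have hSi : S * S = S := by rw [hSdef]; exact tup_sum_idem hT
  have hSl : ∀ j, S * (V j * star (V j)) = V j * star (V j) := fun j => by
    rw [hSdef]; exact tup_sum_mul hT j
  have hSr : ∀ j, (V j * star (V j)) * S = V j * star (V j) := fun j => by
    rw [hSdef]; exact tup_mul_sum hT j
  refine h4 F P 1 hP (k + 2) (Fin.cons (1 - S) (fun i => V i * star (V i))) ?_ ?_ ?_ ?_
  · intro i
    refine Fin.cases ?_ (fun i => ?_) i
    · rw [Fin.cons_zero]
      refine ⟨by rw [star_sub, star_one, hSs], ?_⟩
      have : (1 - S) * (1 - S) = 1 - S - S + S * S := by noncomm_ring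
      rw [this, hSi]; abel
    · rw [Fin.cons_succ]
      refine ⟨by rw [star_mul, star_star], ?_⟩
      rw [tup_prod hT i i, if_pos rfl]
  · intro i j
    refine Fin.cases ?_ (fun i => ?_) i
    · refine Fin.cases ?_ (fun j => ?_) j
      · intro h; exact absurd rfl h
      · intro _
        rw [Fin.cons_zero, Fin.cons_succ, sub_mul, one_mul, hSl, sub_self]
    · refine Fin.cases ?_ (fun j => ?_) j
      · intro _
        rw [Fin.cons_zero, Fin.cons_succ, mul_sub, mul_one, hSr, sub_self]
      · intro h
        rw [Fin.cons_succ, Fin.cons_succ, tup_prod hT i j, if_neg]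
        intro hij
        exact h (by rw [hij])
  · rw [Fin.sum_univ_succ]
    simp only [Fin.cons_zero, Fin.cons_succ]
    rw [← hSdef, sub_add_cancel]
  · intro i
    refine Fin.cases ?_ (fun i => ?_) i
    · rw [Fin.cons_zero]; exact hS
    · rw [Fin.cons_succ]
      exact ⟨star (V i), by rw [star_star], tup_mul' hT i⟩

/-- tuples in a corner -/
theorem corner_tup {A : Type u} [CStarAlgebra A] {F : Type u} [CStarAlgebra F] (q : A →⋆ₐ[ℂ] F)
    {p : A} (hp : Prj p) {n : ℕ} {v : Fin n → A} {p' : A} (hT : Tup v p') (hpp : p * p' = p')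
    (hpv : ∀ i, p * v i = v i) (hS : Sbe (q (p - ∑ i, v i * star (v i))) (q p'))
    {N : Type u} [CStarAlgebra N] (j : N →⋆ₙₐ[ℂ] F) (hj : Cor j (q p)) :
    ∃ (V : Fin n → N) (P : N), Tup V P ∧ Sbe (1 - ∑ i, V i * star (V i)) P := by
  have hpp' : p' * p = p' := by
    have := congrArg star hpp
    rwa [star_mul, hp.1, hT.pr.1] at this
  have hvp : ∀ i, v i * p = v i := fun i => by
    conv_lhs => rw [← tup_mul hT i]
    rw [mul_assoc, hpp', tup_mul hT i]
  have hVex : ∀ i, ∃ x : N, j x = q (v i) := fun i => by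
    apply hj.surj
    rw [← map_mul, ← map_mul, hpv, hvp]
  choose V hV using hVex
  obtain ⟨P, hP⟩ : ∃ x : N, j x = q p' := by
    apply hj.surj
    rw [← map_mul, ← map_mul, hpp, hpp']
  have hinj := hj.inj
  have hTV : Tup V P := by
    refine ⟨⟨?_, ?_⟩, fun i i' => ?_⟩
    · apply hinj
      rw [map_star, hP, ← map_star, hT.pr.1]
    · apply hinj
      rw [map_mul, hP, ← map_mul, hT.pr.2]
    · apply hinj
      rw [map_mul, map_star, hV, hV, ← map_star, ← map_mul, hT.rel i i']
      split_ifs
      · exact hP.symm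
      · rw [map_zero, map_zero]
  refine ⟨V, P, hTV, ?_⟩
  obtain ⟨w, hw1, hw2⟩ := hS
  obtain ⟨e, he⟩ : ∃ e : A, e = p - ∑ i, v i * star (v i) := ⟨_, rfl⟩
  rw [← he] at hw1
  have hep : e * p = e := by
    rw [he, sub_mul, hp.2, Finset.sum_mul]
    congr 1
    refine Finset.sum_congr rfl fun i _ => ?_
    have h1 : star (v i) * p = star (v i) := by
      have := congrArg star (hpv i)
      rwa [star_mul, hp.1] at this
    rw [mul_assoc, h1]
  have hes : star e = e := by
    rw [he, star_sub, hp.1, star_sum_proj]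
  have hpe : p * e = e := by
    have := congrArg star hep
    rwa [star_mul, hp.1, hes] at this
  have hPw : q p * w = w := by
    conv_lhs => rw [← hw2]
    rw [← mul_assoc, ← map_mul, hpp, hw2]
  have hwP : w * q p = w := by
    have h0 : star (w - w * q p) * (w - w * q p) = 0 := by
      have hqs : star (q p) = q p := by rw [← map_star, hp.1]
      have h1 : star (w - w * q p) = star w - q p * star w := by
        rw [star_sub, star_mul, hqs]
      rw [h1]
      have h2 : (star w - q p * star w) * (w - w * q p) =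
          star w * w - star w * w * q p - q p * (star w * w) + q p * (star w * w) * q p := by
        noncomm_ring
      rw [h2, hw1, ← map_mul, ← map_mul, ← map_mul, hep, hpe, hep]
      simp
    have e2 := CStarRing.star_mul_self_eq_zero_iff (w - w * q p) |>.mp h0
    exact (sub_eq_zero.mp e2).symm
  obtain ⟨w0, hw0⟩ : ∃ x : N, j x = w := by
    apply hj.surj
    rw [hPw, hwP]
  refine ⟨w0, ?_, ?_⟩
  · apply hinj
    rw [map_mul, map_star, hw0, hw1, he, map_sub, map_sub, hj.one, map_sum, map_sum]
    congr 1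
    refine Finset.sum_congr rfl fun i _ => ?_
    rw [map_mul, map_mul, map_star, map_star, hV]
  · apply hinj
    rw [map_mul, hP, hw0, hw2]

end H85Q11

open H85Q11 in
theorem prove7_rich (h1 : Q_dich.{u}) (h2 : Q_dix.{u}) (h3 : Q_orth.{u}) (h4 : Q_ftup.{u}) :
    Q_rich.{u} := by
  intro A _ hVN 𝒰 F _ q hfib hFT k
  have hone : Prj (1 : A) := ⟨star_one A, one_mul 1⟩
  rcases h1 A hVN 𝒰 F q hfib 1 hone with hd | hft
  · obtain ⟨v, p, hT, -, -, hS⟩ := hd k
    have hTV := tup_map q hT
    have hS' : Sbe (1 - ∑ i, q (v i) * star (q (v i))) (q p) := by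
      have e : q (1 - ∑ i, v i * star (v i)) = 1 - ∑ i, q (v i) * star (q (v i)) := by
        rw [map_sub, map_one, map_sum]
        congr 1
        refine Finset.sum_congr rfl fun i _ => ?_
        rw [map_mul, map_star]
      rwa [e] at hS
    refine ⟨fun i => q (v i), q p, hTV, hS', fun N _ j hj τ hτ => ⟨?_, ?_⟩⟩
    · exact h2 A hVN 𝒰 F q hfib p hT.pr N j hj τ hτ
    · refine h3 N (fun k' => ?_) τ hτ
      rcases h1 A hVN 𝒰 F q hfib p hT.pr with hd' | hft'
      · obtain ⟨v', p', hT', hpp, hpv, hS''⟩ := hd' k'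
        exact corner_tup q hT.pr hT' hpp hpv hS'' j hj
      · exact absurd (ft_one h4 hTV hS' hft') hFT
  · rw [map_one] at hft
    exact absurd hft hFT

end H759R2.Kad
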